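import Pool.Agent.Helper95.PM.Stmts
import Pool.Agent.Helper31.PW.MOR

/-!
# PM, row MORM: the Morawetz inequality for molecules
-/

set_option autoImplicit false

namespace Pool.Agent.Helper80.MORM

open MeasureTheory Filter Topology Pool.Agent.Helper95.PW Pool.Agent.Helper31.PWMOR

theorem nr_sub_zero (y : R3) : nr (y - 0) = nr y := by rw [sub_zero]

theorem ha1 (h : ST_HA3) : ST_HA1 := by
  intro n k v hv hc
  have := h n k 0 v hv hc
  simp only [sub_zero] at this
  exact this

theorem pot1 (c y : R3) : pot (M := 1) (fun _ => c) (fun _ => 1) y = 1 / nr (y - c) := by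
  unfold pot
  simp

theorem int1 (h : ST_INTM) : ST_INT := by
  intro n v w hv hc hw hd
  have := h n 1 (fun _ => 0) (fun _ => 1) v w hv hc hw hd
  simp only [pot1, sub_zero] at this
  exact this

/-- derivative of a shifted function -/
theorem dsh {n : ℕ} (k : Fin n) (i : Fin 3) (f : Cf n → ℝ) (A x : Cf n) :
    dv k i (fun x => f (x + A)) x = dv k i f (x + A) := by
  unfold dv
  rw [fderiv_comp_add_right]

theorem csh {n : ℕ} {f : Cf n → ℝ} (hf : ContDiff ℝ (⊤ : ℕ∞) f) (A : Cf n) :
    ContDiff ℝ (⊤ : ℕ∞) (fun x => f (x + A)) :=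
  hf.comp (contDiff_id.add contDiff_const)

theorem ssh {n : ℕ} {f : Cf n → ℝ} (hf : HasCompactSupport f) (A : Cf n) :
    HasCompactSupport (fun x => f (x + A)) :=
  hf.comp_homeomorph (Homeomorph.addRight A)

/-- integrability of the single terms -/
theorem iac (h : ST_INTM) {n : ℕ} {v w : Cf n → ℝ} (hv : ContDiff ℝ (⊤ : ℕ∞) v)
    (hc : HasCompactSupport v) (hw : ContDiff ℝ (⊤ : ℕ∞) w) (hd : HasCompactSupport w)
    (k : Fin n) (c : R3) : Integrable (fun x : Cf n => 1 / nr (x k - c) * (v x * w x)) := by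
  have h0 := (h n 1 (fun _ => c) (fun _ => 1) v w hv hc hw hd).1
  simp only [pot1] at h0
  refine h0.mono ?_ (ae_of_all _ fun x => ?_)
  · refine (Measurable.aestronglyMeasurable ?_).mul
      (hv.continuous.mul hw.continuous).aestronglyMeasurable
    exact measurable_const.div (mnr.comp ((measurable_pi_apply k).sub measurable_const))
  · simp only [norm_mul]
    refine mul_le_mul_of_nonneg_right ?_ (by positivity)
    have h0 : ∀ l ∈ Finset.univ, 0 ≤ 1 / nr (x l - c) := fun l _ => by
      have := nr_nn (x l - c); positivity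
    have h1 : 1 / nr (x k - c) ≤ ∑ l, 1 / nr (x l - c) :=
      Finset.single_le_sum (f := fun l => 1 / nr (x l - c)) h0 (Finset.mem_univ k)
    have h2 := h0 k (Finset.mem_univ k)
    rw [Real.norm_of_nonneg h2, Real.norm_of_nonneg (h2.trans h1)]
    exact h1

/-- almost no point has `x k = c` -/
theorem ae1c {n : ℕ} (k : Fin n) (c : R3) : ∀ᵐ x : Cf n, nr (x k - c) ≠ 0 := by
  have h := ae1 k (n := n)
  have h2 := (measurePreserving_add_right (volume : Measure (Cf n))
    (fun _ => -c : Cf n)).quasiMeasurePreserving.ae h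
  filter_upwards [h2] with x hx
  have e : (x + (fun _ => -c : Cf n)) k = x k - c := by
    rw [Pi.add_apply, sub_eq_add_neg]
  rw [← e]
  exact hx

theorem aa_le {n : ℕ} {s : ℝ} (hs : 0 < s) (k : Fin n) (x : Cf n) (y : R3) :
    ∑ i, aa s k i x * y i ≤ nr y := by
  have hq := rh_q hs k x
  have h1 : (∑ i, aa s k i x * y i) ^ 2 ≤ nr y ^ 2 := by
    refine (Finset.sum_mul_sq_le_sq_mul_sq _ _ _).trans ?_
    rw [nr_sq]
    simp only [Fin.sum_univ_three]
    have h2 : aa s k 0 x ^ 2 + aa s k 1 x ^ 2 + aa s k 2 x ^ 2 ≤ 1 := by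
      unfold aa
      nlinarith [sq_nonneg (rh s k x * s)]
    have h3 : 0 ≤ y 0 ^ 2 + y 1 ^ 2 + y 2 ^ 2 := by positivity
    nlinarith
  exact abs_le_of_sq_le_sq' h1 (nr_nn y) |>.2

/-- attraction by a nucleus at `c` -/
theorem ATc (ibp : ST_IBP) (ha : ST_HA3) (int : ST_INTM) {n : ℕ} {s : ℝ} (hs : 0 < s)
    {v : Cf n → ℝ} (hv : ContDiff ℝ (⊤ : ℕ∞) v) (hc : HasCompactSupport v) (k : Fin n)
    (c : R3) :
    ∫ x, 1 / nr (x k - c) * (v x * PP s v x) ≤ 2 * ∫ x, ∑ i, dv k i v x ^ 2 := by
  have hP := PP_c hs hv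
  have hQ := PP_s (s := s) hc
  set A : Cf n := fun _ => -c with hA
  have eA : ∀ x : Cf n, (x + A) k = x k - c := fun x => by
    rw [Pi.add_apply, hA, sub_eq_add_neg]
  refine le_of_tendsto' (lim (Ge := fun m x => rh (1 / ((m : ℝ) + 1)) k (x + A))
    (iac int hv hc hP hQ k c) ?_ ?_ ?_) ?_
  · intro m
    exact ((csh (rh_c (em m) k) A).continuous.mul
      (hv.continuous.mul hP.continuous)).aestronglyMeasurable
  · intro m
    filter_upwards [ae1c k c] with x hx
    have h1 := rh_p (em m) k (x + A)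
    have h2 := rh_le (s := 1 / ((m : ℝ) + 1)) k (x + A) (by rw [eA]; exact hx)
    rw [eA] at h2
    rw [abs_of_pos h1, abs_of_pos (h1.trans_le h2)]
    exact h2
  · filter_upwards [ae1c k c] with x hx
    have hp : 0 < nr ((x + A) k) := by
      rw [eA]; exact lt_of_le_of_ne (nr_nn _) (Ne.symm hx)
    have h1 : 0 < (x + A) k 0 ^ 2 + (x + A) k 1 ^ 2 + (x + A) k 2 ^ 2 := by
      rw [← nr_sq]; positivity
    have h2 := tl h1
    rw [← eA, one_div]
    exact h2
  · intro m
    have he := em m
    generalize 1 / ((m : ℝ) + 1) = e at he ⊢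
    have hW := csh (rh_c he k) A
    have h := L1 ibp hs hv hc hW
    have i1 : Integrable (fun x => rh e k (x + A) * (v x * PP s v x)) :=
      icc (hW.mul (hv.mul hP)) (hc.mul_right.mul_left)
    have hh := ha n k c v hv hc
    have h2 : ∫ x, 2 * (rh e k (x + A) * (v x * PP s v x)) ≤
        ∫ x, ((2 * (rh e k (x + A) * (v x * PP s v x)) +
        v x ^ 2 * ∑ m, ∑ i, aa s m i x * dv m i (fun x => rh e k (x + A)) x) +
          v x ^ 2 / nr (x k - c) ^ 2) := by
      refine integral_mono_ae (i1.const_mul 2) (h.1.add hh.1) ?_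
      filter_upwards [ae1c k c] with x hx
      have e1 : ∑ m, ∑ i, aa s m i x * dv m i (fun x => rh e k (x + A)) x =
          -(rh e k (x + A) ^ 3 * ∑ i, aa s k i x * (x k - c) i) := by
        rw [Finset.sum_eq_single k]
        · simp only [dsh, drh he, Fin.sum_univ_three, if_true, eA]
          ring
        · intro b _ hb
          simp [dsh, drh he, hb]
        · intro h; exact absurd (Finset.mem_univ k) h
      have hp : 0 < nr (x k - c) := lt_of_le_of_ne (nr_nn _) (Ne.symm hx)
      have k1 := aa_le hs k x (x k - c)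
      have k2 := rh_le (s := e) k (x + A) (by rw [eA]; exact hx)
      rw [eA] at k2
      have k4 := rh_p he k (x + A)
      have k5 : rh e k (x + A) ^ 3 * ∑ i, aa s k i x * (x k - c) i ≤ 1 / nr (x k - c) ^ 2 := by
        calc rh e k (x + A) ^ 3 * ∑ i, aa s k i x * (x k - c) i ≤
            rh e k (x + A) ^ 3 * nr (x k - c) := by gcongr
          _ ≤ (1 / nr (x k - c)) ^ 3 * nr (x k - c) := by gcongr
          _ = 1 / nr (x k - c) ^ 2 := by field_simp
      rw [e1]
      have k7 : v x ^ 2 * (rh e k (x + A) ^ 3 * ∑ i, aa s k i x * (x k - c) i) ≤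
          v x ^ 2 / nr (x k - c) ^ 2 := by
        calc v x ^ 2 * (rh e k (x + A) ^ 3 * ∑ i, aa s k i x * (x k - c) i) ≤
            v x ^ 2 * (1 / nr (x k - c) ^ 2) := by gcongr
          _ = v x ^ 2 / nr (x k - c) ^ 2 := by ring
      linarith
    rw [integral_add h.1 hh.1, h.2, integral_const_mul] at h2
    linarith [hh.2]

theorem m_pot {n M : ℕ} (X : Fin M → R3) (Z : Fin M → ℝ) :
    Measurable (fun x : Cf n => ∑ k, pot X Z (x k)) := by
  unfold pot
  refine Finset.measurable_sum _ (fun k _ => Finset.measurable_sum _ (fun j _ => ?_))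
  exact measurable_const.div (mnr.comp ((measurable_pi_apply k).sub measurable_const))

theorem hmLM (int : ST_INTM) {n M : ℕ} (X : Fin M → R3) (Z : Fin M → ℝ) (E : ℝ) {v : Cf n → ℝ}
    (hv : ContDiff ℝ (⊤ : ℕ∞) v) (hc : HasCompactSupport v) :
    MemLp (fun x => hmM X Z v x - E * v x) 2 := by
  have hI := int n M X Z v v hv hc hv hc
  have hvm : Measurable v := hv.continuous.measurable
  have m1 : MemLp (fun x => (∑ k, pot X Z (x k)) * v x) 2 :=
    (memLp_two_iff_integrable_sq ((m_pot X Z).mul hvm).aestronglyMeasurable).2 hI.2.2.1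
  have m0 := hmL (int1 int) 0 E hv hc
  have e : (fun x => hmM X Z v x - E * v x) =
      (fun x => hm 0 v x - E * v x) - fun x => (∑ k, pot X Z (x k)) * v x := by
    funext x
    simp only [Pi.sub_apply]
    unfold hm hmM
    ring
  rw [e]
  exact m0.sub m1

/-- the inequality for a single function -/
theorem MVM (ibp : ST_IBP) (ha : ST_HA3) (int : ST_INTM) {n M : ℕ} {X : Fin M → R3}
    {Z : Fin M → ℝ} {E s : ℝ} (hZ : ∀ j, 0 ≤ Z j) (hs : 0 < s) {v : Cf n → ℝ}
    (hv : ContDiff ℝ (⊤ : ℕ∞) v) (hc : HasCompactSupport v) :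
    ∫ x, (∑ k, mor s (x k)) * v x ^ 2 ≤
      2 * (∫ x, (hmM X Z v x - E * v x) * PP s v x) + 4 * (∑ j, Z j) * K1 v := by
  have hP := PP_c hs hv
  have hQ := PP_s (s := s) hc
  have h0 := MV ibp (ha1 ha) (int1 int) (Z := 0) (E := E) le_rfl hs hv hc
  have hI := (int n M X Z v (PP s v) hv hc hP hQ).1
  have b4 : ∫ x, (∑ k, pot X Z (x k)) * (v x * PP s v x) ≤ 2 * (∑ j, Z j) * K1 v := by
    have e : (fun x : Cf n => (∑ k, pot X Z (x k)) * (v x * PP s v x)) = fun x => ∑ k, ∑ j,
        Z j * (1 / nr (x k - X j) * (v x * PP s v x)) := by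
      funext x
      unfold pot
      rw [Finset.sum_mul]
      refine Finset.sum_congr rfl fun k _ => ?_
      rw [Finset.sum_mul]
      refine Finset.sum_congr rfl fun j _ => ?_
      ring
    have i0 : ∀ (k : Fin n) (j : Fin M), Integrable (fun x : Cf n =>
        Z j * (1 / nr (x k - X j) * (v x * PP s v x))) := fun k j =>
      (iac int hv hc hP hQ k (X j)).const_mul _
    rw [e, integral_finsetSum _ (fun k _ => integrable_finsetSum _ (fun j _ => i0 k j))]
    unfold K1
    rw [Finset.mul_sum]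
    refine Finset.sum_le_sum fun k _ => ?_
    rw [integral_finsetSum _ (fun j _ => i0 k j)]
    have h2 : ∀ j, ∫ x, Z j * (1 / nr (x k - X j) * (v x * PP s v x)) ≤
        Z j * (2 * ∫ x, ∑ i, dv k i v x ^ 2) := fun j => by
      rw [integral_const_mul]
      exact mul_le_mul_of_nonneg_left (ATc ibp ha int hs hv hc k (X j)) (hZ j)
    refine (Finset.sum_le_sum fun j _ => h2 j).trans (le_of_eq ?_)
    rw [← Finset.sum_mul]
    ring
  have i2 : MemLp (PP s v) 2 := hP.continuous.memLp_of_hasCompactSupport hQ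
  have i1 : Integrable (fun x => (hm 0 v x - E * v x) * PP s v x) :=
    (hmL (int1 int) 0 E hv hc).integrable_mul i2
  have b5 : ∫ x, (hmM X Z v x - E * v x) * PP s v x =
      (∫ x, (hm 0 v x - E * v x) * PP s v x) -
        ∫ x, (∑ k, pot X Z (x k)) * (v x * PP s v x) := by
    rw [← integral_sub i1 hI]
    refine integral_congr_ae (ae_of_all _ fun x => ?_)
    simp only []
    unfold hm hmM
    ring
  rw [b5]
  linarith

/-- the Morawetz inequality with the centre at the origin -/
theorem mor0 (ibp : ST_IBP) (ha : ST_HA3) (int : ST_INTM) {n M : ℕ} {X : Fin M → R3}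
    {Z : Fin M → ℝ} {E s : ℝ} {u : Wf n} (hZ : ∀ j, 0 ≤ Z j) (hs : 0 < s) (hu : Sm u) :
    one (mor s) u ≤ 4 * (∑ j, Z j) * kin u + 8 * Real.sqrt (n * kin u * resM X Z E u) := by
  have hk : kin u = ∑ t, K1 (u t) := by
    unfold kin K1 Pool.Agent.Helper95.PW.sq
    have e : ∀ t (k : Fin n), ∫ x, ∑ i, dv k i (u t) x ^ 2 = ∑ i, ∫ x, dv k i (u t) x ^ 2 :=
      fun t k => integral_finsetSum _ (fun i _ => dvi (hu t).1 (hu t).2 k i)
    simp only [e]
    rw [Finset.sum_comm (s := (Finset.univ : Finset (Fin n → Fin 2)))]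
    exact Finset.sum_congr rfl (fun k _ => Finset.sum_comm)
  have h1 : one (mor s) u ≤ 2 * (∑ t, ∫ x, (hmM X Z (u t) x - E * u t x) * PP s (u t) x) +
      4 * (∑ j, Z j) * kin u := by
    rw [hk, Finset.mul_sum, Finset.mul_sum, ← Finset.sum_add_distrib]
    exact Finset.sum_le_sum (fun t _ => MVM ibp ha int hZ hs (hu t).1 (hu t).2)
  have hC : ∑ t, ∫ x, PP s (u t) x ^ 2 ≤ 16 * n * kin u := by
    rw [hk, Finset.mul_sum]
    exact Finset.sum_le_sum (fun t _ => PN (ha1 ha) hs (hu t).1 (hu t).2)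
  have hA : ∑ t, ∫ x, (hmM X Z (u t) x - E * u t x) ^ 2 = resM X Z E u := rfl
  have hM : ∀ t, MemLp (fun x => hmM X Z (u t) x - E * u t x) 2 :=
    fun t => hmLM int X Z E (hu t).1 (hu t).2
  have hN : ∀ t, MemLp (PP s (u t)) 2 := fun t =>
    (PP_c hs (hu t).1).continuous.memLp_of_hasCompactSupport (PP_s (hu t).2)
  have hB : (∑ t, ∫ x, (hmM X Z (u t) x - E * u t x) * PP s (u t) x) ^ 2 ≤
      resM X Z E u * ∑ t, ∫ x, PP s (u t) x ^ 2 := by
    have hd : ∀ y : ℝ, 0 ≤ resM X Z E u * (y * y) +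
        (-2 * ∑ t, ∫ x, (hmM X Z (u t) x - E * u t x) * PP s (u t) x) * y +
        ∑ t, ∫ x, PP s (u t) x ^ 2 := by
      intro y
      have e : ∀ t, ∫ x, (y * (hmM X Z (u t) x - E * u t x) - PP s (u t) x) ^ 2 =
          (y * y) * (∫ x, (hmM X Z (u t) x - E * u t x) ^ 2) +
          (-2 * y) * (∫ x, (hmM X Z (u t) x - E * u t x) * PP s (u t) x) +
          ∫ x, PP s (u t) x ^ 2 := by
        intro t
        have j1 : Integrable (fun x => (hmM X Z (u t) x - E * u t x) ^ 2) := (hM t).integrable_sq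
        have j2 : Integrable (fun x => (hmM X Z (u t) x - E * u t x) * PP s (u t) x) :=
          (hM t).integrable_mul (hN t)
        have j3 : Integrable (fun x => PP s (u t) x ^ 2) := (hN t).integrable_sq
        rw [← l3 j1 j2 j3]
        refine integral_congr_ae (ae_of_all _ fun x => ?_)
        simp only []
        ring
      have h : 0 ≤ ∑ t, ∫ x, (y * (hmM X Z (u t) x - E * u t x) - PP s (u t) x) ^ 2 :=
        Finset.sum_nonneg (fun t _ => integral_nonneg (fun x => sq_nonneg _))
      rw [Finset.sum_congr rfl (fun t _ => e t), Finset.sum_add_distrib, Finset.sum_add_distrib,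
        ← Finset.mul_sum, ← Finset.mul_sum, hA] at h
      linarith
    have := discrim_le_zero hd
    unfold discrim at this
    nlinarith
  have hr : 0 ≤ resM X Z E u := by
    rw [← hA]
    exact Finset.sum_nonneg (fun t _ => integral_nonneg (fun x => sq_nonneg _))
  have hF : (∑ t, ∫ x, (hmM X Z (u t) x - E * u t x) * PP s (u t) x) ≤
      4 * Real.sqrt (n * kin u * resM X Z E u) := by
    have h2 : (∑ t, ∫ x, (hmM X Z (u t) x - E * u t x) * PP s (u t) x) ^ 2 ≤
        4 ^ 2 * (n * kin u * resM X Z E u) := by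
      refine hB.trans ?_
      have := mul_le_mul_of_nonneg_left hC hr
      linarith
    have h3 := Real.abs_le_sqrt h2
    rw [Real.sqrt_mul (by norm_num), Real.sqrt_sq (by norm_num)] at h3
    exact (le_abs_self _).trans h3
  linarith

/-- the translated function -/
theorem trans {n M : ℕ} (X : Fin M → R3) (Z : Fin M → ℝ) (E s : ℝ) (a : R3) (u : Wf n) :
    one (fun y => mor s (y - a)) u = one (mor s) (fun t x => u t (x + fun _ => a)) ∧
    kin (fun t x => u t (x + fun _ => a)) = kin u ∧
    resM (fun j => X j - a) Z E (fun t x => u t (x + fun _ => a)) = resM X Z E u := by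
  set A : Cf n := fun _ => a with hA
  have eA : ∀ (x : Cf n) (k : Fin n), (x + A) k = x k + a := fun x k => rfl
  refine ⟨?_, ?_, ?_⟩
  · unfold one
    refine Finset.sum_congr rfl fun t _ => ?_
    rw [← integral_add_right_eq_self _ A]
    refine integral_congr_ae (ae_of_all _ fun x => ?_)
    simp only [eA, add_sub_cancel_right]
  · unfold kin Pool.Agent.Helper95.PW.sq
    refine Finset.sum_congr rfl fun k _ => Finset.sum_congr rfl fun i _ =>
      Finset.sum_congr rfl fun t _ => ?_
    rw [← integral_add_right_eq_self (fun x => dv k i (u t) x ^ 2) A]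
    refine integral_congr_ae (ae_of_all _ fun x => ?_)
    simp only [dsh k i (u t) A]
  · unfold resM Pool.Agent.Helper95.PW.sq
    refine Finset.sum_congr rfl fun t _ => ?_
    rw [← integral_add_right_eq_self (fun x => (hmM X Z (u t) x - E * u t x) ^ 2) A]
    refine integral_congr_ae (ae_of_all _ fun x => ?_)
    have e1 : ∀ k i, dv k i (dv k i fun x => u t (x + A)) x = dv k i (dv k i (u t)) (x + A) := by
      intro k i
      have : (dv k i fun x => u t (x + A)) = fun x => dv k i (u t) (x + A) := by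
        funext y
        exact dsh k i (u t) A y
      rw [this, dsh]
    have e2 : rep (x + A) = rep x := by
      unfold rep
      simp only [eA, add_sub_add_right_eq_sub]
    have e3 : ∀ k, pot (fun j => X j - a) Z (x k) = pot X Z ((x + A) k) := by
      intro k
      unfold pot
      refine Finset.sum_congr rfl fun j _ => ?_
      rw [eA]
      congr 2
      rw [sub_sub_eq_add_sub]
    simp only [hmM, e1, e2, e3]

end Pool.Agent.Helper80.MORM

namespace Pool.Agent.Helper95.PW

open Pool.Agent.Helper80.MORM in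
/-- the Morawetz inequality for molecules -/
theorem st_MORM (h1 : ST_IBP) (h2 : ST_HA3) (h3 : ST_INTM) (_h4 : ST_QHM) : ST_MORM := by
  intro n M X Z E s a u hZ hs hu
  obtain ⟨e1, e2, e3⟩ := trans X Z E s a u
  rw [e1, ← e2, ← e3]
  refine mor0 h1 h2 h3 hZ hs fun t => ⟨csh (hu t).1 _, ssh (hu t).2 _⟩

end Pool.Agent.Helper95.PW
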